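import Pool.Agent.KPR.K
import Pool.Agent.KSS.Defs

/-!
# KPR: the groups `K'_n(X)`
-/

set_option autoImplicit false

namespace Pool.Agent.KPR

open CategoryTheory AlgebraicGeometry Pool.Agent.KSS

/-- Quillen's `K'_n(X)`: `K_n` of the category of coherent sheaves on `X` -/
abbrev KX (n : ℕ) (X : Scheme.{0}) : Type 1 := K X.Modules IsCoh n

end Pool.Agent.KPR
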