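import Pool.Agent.KPR.Kn
import Pool.Agent.KPR.KX
import Pool.Agent.KQG.GDefs
import Pool.Agent.KQG.MDefs

/-!
# KPR: schemes and rings

`KX n X ≃+ Kn n (Coh X)` and `KA n A ≃+ Kn n (MA A)`.
-/

set_option autoImplicit false

noncomputable section

namespace Pool.Agent.KPR

open CategoryTheory CategoryTheory.Limits Function Pool.Agent.KQ Pool.Agent.KQG Pool.Agent.KSS
open AlgebraicGeometry

universe u

/-- **the bridge**: `K_n` of the compact definition is `Kn` of the library KQ -/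
def kEquiv (E : ExCat.{u}) (n : ℕ) : K E.C E.P n ≃+ Kn n E :=
  AddEquiv.mk' (knMul E n).toEquiv fun x y => (knMul E n).map_mul x y

/-- rings -/
def kaEquiv (n : ℕ) (A : Type) [CommRing A] : KA n A ≃+ Kn n (MA A) := kEquiv (MA A) n

/-! ### full subcategories -/

section full

variable {C : Type (u + 1)} [Category.{u} C] [Abelian C] (Q : ObjectProperty C)
  [Abelian Q.FullSubcategory] (P : C → Prop) (hPQ : ∀ X, P X → Q X)
  (hz : ∀ X : Q.FullSubcategory, IsZero X ↔ IsZero X.obj)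
  (hs : ∀ {X Y Z : Q.FullSubcategory} (f : X ⟶ Y) (g : Y ⟶ Z), SES f g ↔ SES f.hom g.hom)

include hPQ hz hs

/-- the diagrams in a full subcategory -/
def subE (k m : ℕ) : SDiag Q.FullSubcategory (fun X => P X.obj) k m ≃ SDiag C P k m where
  toFun S :=
    { D := S.D ⋙ Q.ι
      prop := S.prop
      zero := fun x i h => (hz _).1 (S.zero x i h)
      exact := fun x y z h h' i h1 h2 h3 h4 => (hs _ _).1 (S.exact x y z h h' i h1 h2 h3 h4) }
  invFun T :=
    { D := Q.lift T.D fun x => hPQ _ (T.prop x)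
      prop := T.prop
      zero := fun x i h => (hz _).2 (T.zero x i h)
      exact := fun x y z h h' i h1 h2 h3 h4 => (hs _ _).2 (T.exact x y z h h' i h1 h2 h3 h4) }
  left_inv S := SDiag.ext' rfl
  right_inv T := SDiag.ext' rfl

/-- the simplicial groups -/
def subG (k : ℕ) : (ZS.sd Q.FullSubcategory (fun X => P X.obj) k).G ≅ (ZS.sd C P k).G :=
  ZS.isoG (X := ZS.sd Q.FullSubcategory (fun X => P X.obj) k) (Y := ZS.sd C P k)
    (subE Q P hPQ hz hs k) (fun _ S => forall_congr' fun x => hz (S.D.obj x)) fun _ _ => rfl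

/-- the K-groups -/
def subK (n : ℕ) : K Q.FullSubcategory (fun X => P X.obj) n ≃+ K C P n :=
  AddEquiv.mk' ((ZS.kpEquiv n).trans ((SGp.PiEquiv (subG Q P hPQ hz hs (n + 3))
    (2 * n + 2 + 1)).trans (ZS.kpEquiv n).symm)).toEquiv fun x y =>
      ((ZS.kpEquiv n).trans ((SGp.PiEquiv (subG Q P hPQ hz hs (n + 3))
        (2 * n + 2 + 1)).trans (ZS.kpEquiv n).symm)).map_mul x y

end full

theorem isZero_full {C : Type*} [Category C] [HasZeroMorphisms C] {Q : ObjectProperty C}
    {X : Q.FullSubcategory} (h : IsZero X.obj) : IsZero X where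
  unique_to Y := ⟨⟨⟨ObjectProperty.homMk (h.to_ Y.obj)⟩, fun f =>
    ObjectProperty.hom_ext _ (h.eq_of_src _ _)⟩⟩
  unique_from Y := ⟨⟨⟨ObjectProperty.homMk (h.from_ Y.obj)⟩, fun f =>
    ObjectProperty.hom_ext _ (h.eq_of_tgt _ _)⟩⟩

/-- **schemes**: `K'_n(X)` of the compact definition is `Kn n (Coh X)` of the library KQ -/
def kxEquiv (n : ℕ) (X : Scheme.{0}) : KX n X ≃+ Kn n (Coh X) :=
  (subK (qcP X) IsCoh (fun _ h => h.1) (fun _ => ⟨fun h => (qcP X).ι.map_isZero h, isZero_full⟩)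
    (fun f g => ses_qc f g) n).symm.trans (kEquiv (Coh X) n)

end Pool.Agent.KPR
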