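import Mathlib

/-!
# KPR: a compact definition of Quillen's `K_n` of an exact category

Let `C` be an abelian category and `P` a property of objects of `C`, closed under isomorphisms and
extensions and true for zero objects, so that the objects with the property `P` form an exact
category `E`. `KP C P n` is `K_n(E)`, `n ≥ 0`.

`SDiag C P k m` is the set of objects of `S_m ⋯ S_m E` (`k` times), `S_m` the S-construction of
Waldhausen. For fixed `k` these sets form a simplicial set `X_k` (the diagonal of the `k`-fold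
S-construction) whose realization is `(k - 1)`-connected, and `K_n(E) = π_(n+k) X_k` for `k ≥ 1`
(Waldhausen, Algebraic K-theory of spaces, 1.3 to 1.5 and 1.9). The free groups `FG C P k m` on the
sets `SDiag C P k m`, the diagrams of zero objects identified with `1`, form a simplicial group
`F X_k`, a model of `Ω Σ X_k` (Milnor, On the construction FK), so that
`π_j (F X_k) = π_(j+1) (Σ X_k) = π_j X_k` for `j ≤ 2 k - 2` (Freudenthal), and
`K_n(E) = π_(n+k) (F X_k)` for `k ≥ n + 2`; here `k = n + 3`, `n + k = 2 n + 3`. The homotopy groups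
of a simplicial group are computed by its Moore complex (`PiS`).
-/

set_option autoImplicit false

namespace Pool.Agent.KPR

open CategoryTheory CategoryTheory.Limits

universe u

/-- the pairs `i ≤ j` of elements of `{0, …, m}`, ordered componentwise -/
abbrev Pr (m : ℕ) : Type := {p : Fin (m + 1) × Fin (m + 1) // p.1 ≤ p.2}

/-- the `k`-tuples of such pairs, ordered componentwise -/
def Tup (k m : ℕ) : Type := Fin k → Pr m

instance (k m : ℕ) : Preorder (Tup k m) := Pi.preorder

/-- `0 → X → Y → Z → 0` is exact -/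
def Ex {C : Type (u + 1)} [Category.{u} C] [Abelian C] {X Y Z : C} (f : X ⟶ Y) (g : Y ⟶ Z) :
    Prop := ∃ w : f ≫ g = 0, (ShortComplex.mk f g w).ShortExact

variable (C : Type (u + 1)) [Category.{u} C] [Abelian C] (P : C → Prop)

/-- The objects of `S_m ⋯ S_m E` (`k` times): functors `D` from `k`-tuples of pairs `i ≤ j` in
`{0, …, m}` to `C` with values in `P` such that `D(x)` is a zero object if a pair `x_i` is of the form
`(a, a)`, and such that `0 → D(x) → D(y) → D(z) → 0` is exact if `x_i = (a, b)`, `y_i = (a, c)`,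
`z_i = (b, c)` for an index `i` and `x_j = y_j = z_j` for all other `j`. -/
structure SDiag (k m : ℕ) where
  /-- the diagram -/
  D : Tup k m ⥤ C
  prop : ∀ x, P (D.obj x)
  zero : ∀ (x : Tup k m) (i : Fin k), (x i).1.1 = (x i).1.2 → IsZero (D.obj x)
  exact : ∀ (x y z : Tup k m) (h : x ≤ y) (h' : y ≤ z) (i : Fin k),
    (∀ j, j ≠ i → x j = y j ∧ y j = z j) → (x i).1.1 = (y i).1.1 → (y i).1.2 = (z i).1.2 →
    (x i).1.2 = (z i).1.1 → Ex (D.map (homOfLE h)) (D.map (homOfLE h'))

/-- the map of pairs given by the injection `{0, …, m} → {0, …, m + 1}` which omits `a` -/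
def dPr {m : ℕ} (a : Fin (m + 2)) (p : Pr m) : Pr (m + 1) :=
  ⟨(a.succAbove p.1.1, a.succAbove p.1.2), (Fin.strictMono_succAbove a).monotone p.2⟩

theorem dPr_mono {m : ℕ} (a : Fin (m + 2)) : Monotone (dPr a) := fun _ _ h =>
  ⟨(Fin.strictMono_succAbove a).monotone h.1, (Fin.strictMono_succAbove a).monotone h.2⟩

/-- the same map on tuples of pairs -/
def dT {k m : ℕ} (a : Fin (m + 2)) (x : Tup k m) : Tup k (m + 1) := fun i => dPr a (x i)

theorem dT_mono {k m : ℕ} (a : Fin (m + 2)) : Monotone (dT (k := k) a) :=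
  fun _ _ h i => dPr_mono a (h i)

variable {C P}

/-- the face `d_a` -/
def SDiag.face {k m : ℕ} (a : Fin (m + 2)) (S : SDiag C P k (m + 1)) : SDiag C P k m where
  D := (dT_mono a).functor ⋙ S.D
  prop _ := S.prop _
  zero _ i h := S.zero _ i (congrArg a.succAbove h)
  exact _ _ _ h h' i hj h1 h2 h3 := S.exact _ _ _ (dT_mono a h) (dT_mono a h') i
    (fun j hji => ⟨congrArg (dPr a) (hj j hji).1, congrArg (dPr a) (hj j hji).2⟩)
    (congrArg a.succAbove h1) (congrArg a.succAbove h2) (congrArg a.succAbove h3)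

variable (C P)

/-- the normal subgroup generated by the diagrams of zero objects -/
def Nul (k m : ℕ) : Subgroup (FreeGroup (SDiag C P k m)) :=
  Subgroup.normalClosure {w | ∃ S : SDiag C P k m, (∀ x, IsZero (S.D.obj x)) ∧ w = FreeGroup.of S}

instance (k m : ℕ) : (Nul C P k m).Normal := Subgroup.normalClosure_normal

/-- the free group on the objects of `S_m ⋯ S_m E` (`k` times), zero objects identified with `1` -/
abbrev FG (k m : ℕ) : Type (u + 1) := FreeGroup (SDiag C P k m) ⧸ Nul C P k m

theorem Nul_face (k m : ℕ) (a : Fin (m + 2)) :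
    Nul C P k (m + 1) ≤ (Nul C P k m).comap (FreeGroup.map (SDiag.face a)) := by
  refine Subgroup.normalClosure_le_normal ?_
  rintro _ ⟨S, hS, rfl⟩
  refine Subgroup.subset_normalClosure ⟨S.face a, fun x => hS _, ?_⟩
  exact FreeGroup.map.of

/-- the face `d_a` of the simplicial group -/
def dG (k m : ℕ) (a : Fin (m + 2)) : FG C P k (m + 1) →* FG C P k m :=
  QuotientGroup.map _ _ (FreeGroup.map (SDiag.face a)) (Nul_face C P k m a)

variable {C P} in
/-- the homotopy group of degree `m + 1` of a simplicial group with the faces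
`e_0, …, e_(m+2) : G_(m+2) → G_(m+1)` and `d_0, …, d_(m+1) : G_(m+1) → G_m`: the cycles
`{w | d_a w = 1 for all a}` modulo the boundaries `{e_0 v | e_a v = 1 for all a ≥ 1}` (the boundaries
are a normal subgroup, so that the normal closure does not change them) -/
def Moore {m : ℕ} {G₂ G₁ G₀ : Type u} [Group G₂] [Group G₁] [Group G₀]
    (e : Fin (m + 3) → G₂ →* G₁) (d : Fin (m + 2) → G₁ →* G₀) : Type u :=
  ↥(⨅ a, (d a).ker) ⧸ Subgroup.normalClosure
    {z : ↥(⨅ a, (d a).ker) | (z : G₁) ∈ (⨅ a : Fin (m + 2), (e a.succ).ker).map (e 0)}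

instance Moore.group {m : ℕ} {G₂ G₁ G₀ : Type u} [Group G₂] [Group G₁] [Group G₀]
    (e : Fin (m + 3) → G₂ →* G₁) (d : Fin (m + 2) → G₁ →* G₀) : Group (Moore e d) :=
  QuotientGroup.Quotient.group _

/-- Quillen's `K_n(E)`, `n ≥ 0`: the homotopy group of degree `2 n + 3` of the simplicial group for
`k = n + 3` (the group law is written multiplicatively) -/
def KP (n : ℕ) : Type (u + 1) :=
  Moore (dG C P (n + 3) (2 * n + 3)) (dG C P (n + 3) (2 * n + 2))

instance KP.group (n : ℕ) : Group (KP C P n) := Moore.group _ _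

end Pool.Agent.KPR
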