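import Pool.Agent.KPR.ZS

/-!
# KPR: the diagrams `SDiag` are the objects of the iterated S-construction

For an exact category `E` the set `SDiag E.C E.P k m` is in bijection with the objects of
`((itS Sd k).obj E).obj m = S_m ⋯ S_m E`, compatible with the operators and with exact functors.
-/

set_option autoImplicit false

noncomputable section

namespace Pool.Agent.KPR

open CategoryTheory CategoryTheory.Limits Function Pool.Agent.KQ

universe u

section cur

variable {C : Type*} [Category C] {k m : ℕ}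

/-- the tuple `(p, y_0, …, y_(k-1))` -/
def consT (p : Pr m) (y : Tup k m) : Tup (k + 1) m := Fin.cons p y

/-- the tuple without the first entry -/
def tailT (x : Tup (k + 1) m) : Tup k m := fun i => x i.succ

theorem consT_mono {p p' : Pr m} {y y' : Tup k m} (h : p ≤ p') (h' : y ≤ y') :
    consT p y ≤ consT p' y' := by
  intro i
  refine Fin.cases ?_ (fun i => ?_) i
  · exact h
  · exact h' i

theorem consT_tail (x : Tup (k + 1) m) : consT (x 0) (tailT x) = x := by
  funext i
  refine Fin.cases ?_ (fun i => ?_) i <;> rfl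

theorem ex_consT (x : Tup (k + 1) m) : ∃ p y, x = consT p y := ⟨_, _, (consT_tail x).symm⟩

theorem tailT_mono {x y : Tup (k + 1) m} (h : x ≤ y) : tailT x ≤ tailT y := fun i => h i.succ

/-- currying -/
def curD (D : Tup (k + 1) m ⥤ C) : Tup k m ⥤ (Ar (Fin (m + 1)) ⥤ C) where
  obj y :=
    { obj := fun p => D.obj (consT p y)
      map := fun f => D.map (homOfLE (consT_mono (leOfHom f) le_rfl))
      map_id := fun p => D.map_id _
      map_comp := fun f g => by
        rw [← D.map_comp]
        rfl }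
  map g :=
    { app := fun p => D.map (homOfLE (consT_mono le_rfl (leOfHom g)))
      naturality := fun p q f => by
        change D.map _ ≫ D.map _ = D.map _ ≫ D.map _
        rw [← D.map_comp, ← D.map_comp]
        rfl }
  map_id y := by
    apply NatTrans.ext
    funext p
    exact D.map_id _
  map_comp f g := by
    apply NatTrans.ext
    funext p
    change D.map _ = D.map _ ≫ D.map _
    rw [← D.map_comp]
    rfl

/-- uncurrying -/
def uncD (D : Tup k m ⥤ (Ar (Fin (m + 1)) ⥤ C)) : Tup (k + 1) m ⥤ C where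
  obj x := (D.obj (tailT x)).obj (x 0)
  map {x y} f := (D.map (homOfLE (tailT_mono (leOfHom f)))).app (x 0) ≫
    (D.obj (tailT y)).map (homOfLE (leOfHom f 0) : (x 0 : Ar (Fin (m + 1))) ⟶ y 0)
  map_id x := by
    change (D.map (𝟙 _)).app _ ≫ (D.obj _).map (𝟙 _) = _
    rw [D.map_id, CategoryTheory.Functor.map_id]
    exact Category.id_comp _
  map_comp {x y z} f g := by
    have e1 : D.map (homOfLE (tailT_mono (leOfHom (f ≫ g)))) =
        D.map (homOfLE (tailT_mono (leOfHom f))) ≫ D.map (homOfLE (tailT_mono (leOfHom g))) := by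
      rw [← D.map_comp]
      rfl
    have e2 : (D.obj (tailT z)).map
        (homOfLE (leOfHom (f ≫ g) 0) : (x 0 : Ar (Fin (m + 1))) ⟶ z 0) =
        (D.obj (tailT z)).map (homOfLE (leOfHom f 0) : (x 0 : Ar (Fin (m + 1))) ⟶ y 0) ≫
        (D.obj (tailT z)).map (homOfLE (leOfHom g 0) : (y 0 : Ar (Fin (m + 1))) ⟶ z 0) := by
      rw [← CategoryTheory.Functor.map_comp]
      rfl
    rw [e1, e2, NatTrans.comp_app, Category.assoc, Category.assoc]
    congr 1
    rw [← Category.assoc, ← Category.assoc]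
    congr 1
    exact ((D.map (homOfLE (tailT_mono (leOfHom g)))).naturality _).symm

theorem map_heq {K : Type} [Preorder K] (D : K ⥤ C) {a b a' b' : K} (ha : a = a')
    (hb : b = b') (g : a ⟶ b) (g' : a' ⟶ b') : HEq (D.map g) (D.map g') := by
  subst ha hb
  rw [Subsingleton.elim g g']

theorem nt_heq {J : Type*} [Category J] {A B A' B' : J ⥤ C} (hA : A = A') (hB : B = B')
    (t : A ⟶ B) (t' : A' ⟶ B') (h : ∀ p, HEq (t.app p) (t'.app p)) : HEq t t' := by
  subst hA hB
  exact heq_of_eq (NatTrans.ext (funext fun p => eq_of_heq (h p)))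

theorem unc_cur (D : Tup (k + 1) m ⥤ C) : uncD (curD D) = D :=
  CategoryTheory.Functor.hext (fun x => congrArg D.obj (consT_tail x)) fun x y _ =>
    (heq_of_eq (D.map_comp _ _).symm).trans (map_heq D (consT_tail x) (consT_tail y) _ _)

theorem unc_obj (D : Tup k m ⥤ (Ar (Fin (m + 1)) ⥤ C)) (p : Pr m) (y : Tup k m) :
    (uncD D).obj (consT p y) = (D.obj y).obj p := rfl

theorem unc_map_l (D : Tup k m ⥤ (Ar (Fin (m + 1)) ⥤ C)) {p q : Ar (Fin (m + 1))} (h : p ≤ q)
    (y : Tup k m) : (uncD D).map (homOfLE (consT_mono (p := p) (p' := q) h (le_refl y))) =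
      (D.obj y).map (homOfLE h) := by
  change (D.map (𝟙 _)).app _ ≫ (D.obj _).map _ = _
  rw [D.map_id]
  exact Category.id_comp _

theorem unc_map_r (D : Tup k m ⥤ (Ar (Fin (m + 1)) ⥤ C)) (p : Pr m) {y z : Tup k m}
    (h : y ≤ z) : (uncD D).map (homOfLE (consT_mono (le_refl p) h)) =
      (D.map (homOfLE h)).app p := by
  change (D.map _).app _ ≫ (D.obj _).map (𝟙 _) = _
  rw [CategoryTheory.Functor.map_id]
  exact Category.comp_id _

theorem cur_unc (D : Tup k m ⥤ (Ar (Fin (m + 1)) ⥤ C)) : curD (uncD D) = D := by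
  have h1 : ∀ y, (curD (uncD D)).obj y = D.obj y := fun y =>
    CategoryTheory.Functor.hext (fun _ => rfl) fun p q f =>
      heq_of_eq (unc_map_l D (leOfHom f) y)
  exact CategoryTheory.Functor.hext h1 fun y z g =>
    nt_heq (h1 y) (h1 z) _ _ fun p => heq_of_eq (unc_map_r D p (leOfHom g))

end cur

theorem SDiag.ext' {C : Type (u + 1)} [Category.{u} C] [Abelian C] {P : C → Prop} {k m : ℕ}
    {S T : SDiag C P k m} (h : S.D = T.D) : S = T := by
  cases S
  cases T
  cases h
  rfl

/-! ### the case `k = 0` -/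

/-- the empty tuple -/
def t0 (m : ℕ) : Tup 0 m := fun i => i.elim0

theorem t0_eq {m : ℕ} (x : Tup 0 m) : x = t0 m := funext fun i => i.elim0

/-- the diagrams for `k = 0` are the objects -/
def e0 (E : ExCat.{u}) (m : ℕ) : SDiag E.C E.P 0 m ≃ E.Ob where
  toFun S := ⟨S.D.obj (t0 m), S.prop _⟩
  invFun X :=
    { D := (Functor.const _).obj X.obj
      prop := fun _ => X.property
      zero := fun _ i => i.elim0
      exact := fun _ _ _ _ _ i => i.elim0 }
  left_inv S := by
    apply SDiag.ext'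
    exact CategoryTheory.Functor.hext (fun x => congrArg S.D.obj (t0_eq x).symm) fun x y _ =>
      (heq_of_eq (S.D.map_id _).symm).trans (map_heq S.D (t0_eq x).symm (t0_eq y).symm _ _)
  right_inv X := rfl

/-! ### exact functors -/

/-- exact functors act on the diagrams -/
def mapSD {E E' : ExCat.{u}} (F : ExFun E E') {k m : ℕ} (S : SDiag E.C E.P k m) :
    SDiag E'.C E'.P k m where
  D := F.onD (J := Tup k m) S.D S.prop
  prop x := (F.F.obj _).property
  zero x i h := F.isZero (S.zero x i h)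
  exact x y z h h' i h1 h2 h3 h4 := F.exact (X := ⟨S.D.obj x, S.prop x⟩)
    (Y := ⟨S.D.obj y, S.prop y⟩) (Z := ⟨S.D.obj z, S.prop z⟩)
    (ObjectProperty.homMk (S.D.map (homOfLE h))) (ObjectProperty.homMk (S.D.map (homOfLE h')))
    (S.exact x y z h h' i h1 h2 h3 h4)

/-! ### currying of diagrams -/

section curS

variable (E : ExCat.{u}) {k m : ℕ}

theorem curS_aux (S : SDiag E.C E.P (k + 1) m) (y : Tup k m) :
    (E.SP (Fin (m + 1))).Q ((curD S.D).obj y) := by
  refine ⟨fun x => S.prop _, fun i => S.zero _ 0 rfl, fun i j l hij hjl => ?_⟩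
  exact S.exact (consT (ar i j hij) y) (consT (ar i l (hij.trans hjl)) y) (consT (ar j l hjl) y)
    (consT_mono ⟨le_rfl, hjl⟩ le_rfl) (consT_mono ⟨hij, le_rfl⟩ le_rfl) 0 (by
      intro j hj
      obtain ⟨j, rfl⟩ := Fin.exists_succ_eq.2 hj
      exact ⟨rfl, rfl⟩) rfl rfl rfl

/-- currying of diagrams -/
def curS (S : SDiag E.C E.P (k + 1) m) :
    SDiag (E.S (Fin (m + 1))).C (E.S (Fin (m + 1))).P k m where
  D := curD S.D
  prop := curS_aux E S
  zero y i h := (isZero_functor _).2 fun p => S.zero (consT p y) i.succ h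
  exact x y z h h' i h1 h2 h3 h4 := (ses_functor _ _).2 fun p =>
    S.exact (consT p x) (consT p y) (consT p z) (consT_mono le_rfl h) (consT_mono le_rfl h')
      i.succ (by
        intro j
        refine Fin.cases ?_ (fun j => ?_) j
        · exact fun _ => ⟨rfl, rfl⟩
        · exact fun hj => h1 j fun hji => hj (congrArg Fin.succ hji)) h2 h3 h4

theorem uncS_exact (T : SDiag (E.S (Fin (m + 1))).C (E.S (Fin (m + 1))).P k m)
    (x y z : Tup (k + 1) m) (h : x ≤ y) (h' : y ≤ z) (i : Fin (k + 1)) :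
    (∀ j, j ≠ i → x j = y j ∧ y j = z j) → (x i).1.1 = (y i).1.1 → (y i).1.2 = (z i).1.2 →
    (x i).1.2 = (z i).1.1 →
    SES ((uncD (C := E.C) T.D).map (homOfLE h)) ((uncD (C := E.C) T.D).map (homOfLE h')) := by
  obtain ⟨p, x, rfl⟩ := ex_consT x
  obtain ⟨q, y, rfl⟩ := ex_consT y
  obtain ⟨r, z, rfl⟩ := ex_consT z
  refine Fin.cases ?_ (fun i => ?_) i
  · intro h1 h2 h3 h4
    have e1 : x = y := funext fun j => (h1 j.succ (Fin.succ_ne_zero j)).1
    have e2 : y = z := funext fun j => (h1 j.succ (Fin.succ_ne_zero j)).2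
    subst e1 e2
    obtain ⟨⟨a, b⟩, hab⟩ := p
    obtain ⟨⟨a', c⟩, hac⟩ := q
    obtain ⟨⟨b', c'⟩, hbc⟩ := r
    change a = a' at h2
    change c = c' at h3
    change b = b' at h4
    subst h2 h3 h4
    have h5 := (T.prop x).2.2 a b c hab hbc
    have e1 := unc_map_l (C := E.C) T.D (p := ar a b hab) (q := ar a c hac) (h 0) x
    have e2 := unc_map_l (C := E.C) T.D (p := ar a c hac) (q := ar b c hbc) (h' 0) x
    exact Eq.mpr (congrArg₂ (fun f g => SES f g) e1 e2) h5
  · intro h1 h2 h3 h4
    obtain ⟨e1, e2⟩ := h1 0 (Fin.succ_ne_zero i).symm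
    change p = q at e1
    change q = r at e2
    subst e1 e2
    have h5 := (ses_functor _ _).1 (T.exact x y z (fun j => h j.succ) (fun j => h' j.succ) i
      (fun j hj => h1 j.succ fun e => hj (Fin.succ_injective _ e)) h2 h3 h4) p
    have e1 := unc_map_r (C := E.C) T.D p (y := x) (z := y) (fun j => h j.succ)
    have e2 := unc_map_r (C := E.C) T.D p (y := y) (z := z) (fun j => h' j.succ)
    exact Eq.mpr (congrArg₂ (fun f g => SES f g) e1 e2) h5

/-- uncurrying of diagrams -/
def uncS (T : SDiag (E.S (Fin (m + 1))).C (E.S (Fin (m + 1))).P k m) :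
    SDiag E.C E.P (k + 1) m where
  D := uncD (C := E.C) T.D
  prop x := (T.prop (tailT x)).1 (x 0)
  zero x i := by
    refine Fin.cases ?_ (fun i => ?_) i
    · intro h
      have h1 := (T.prop (tailT x)).2.1 (x 0).1.1
      have e : (x 0 : Ar (Fin (m + 1))) = ar (x 0).1.1 (x 0).1.1 le_rfl :=
        Subtype.ext (Prod.ext rfl h.symm)
      change IsZero (Functor.obj (T.D.obj (tailT x)) (x 0 : Ar (Fin (m + 1))))
      rw [e]
      exact h1
    · intro h
      exact (isZero_functor _).1 (T.zero (tailT x) i h) (x 0)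
  exact := uncS_exact E T

/-- currying is a bijection -/
def curE : SDiag E.C E.P (k + 1) m ≃ SDiag (E.S (Fin (m + 1))).C (E.S (Fin (m + 1))).P k m where
  toFun := curS E
  invFun := uncS E
  left_inv S := SDiag.ext' (unc_cur S.D)
  right_inv T := SDiag.ext' (cur_unc (C := E.C) T.D)

theorem curS_map {E E' : ExCat.{u}} (F : ExFun E E') (S : SDiag E.C E.P (k + 1) m) :
    curS E' (mapSD F S) = mapSD (F.S (Fin (m + 1))) (curS E S) := rfl

theorem opT_cons {n : ℕ} (f : Mo m n) (x : Tup (k + 1) m) :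
    consT (ZS.opPr f (x 0)) (ZS.opT f (tailT x)) = ZS.opT f x := by
  funext i
  refine Fin.cases ?_ (fun i => ?_) i <;> rfl

theorem curS_op {n : ℕ} (f : Mo m n) (S : SDiag E.C E.P (k + 1) n) :
    curS E (ZS.opS f S) = ZS.opS f (mapSD (E.Smap f) (curS E S)) := by
  apply (curE E).symm.injective
  rw [show curS E (ZS.opS f S) = curE E (ZS.opS f S) from rfl, Equiv.symm_apply_apply]
  apply SDiag.ext'
  exact (CategoryTheory.Functor.hext (fun x => congrArg S.D.obj (opT_cons f x)) fun x y g =>
    (heq_of_eq (S.D.map_comp _ _).symm).trans (map_heq S.D (opT_cons f x) (opT_cons f y) _ _) :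
    uncD (C := E.C) (ZS.opS f (mapSD (E.Smap f) (curS E S))).D = (ZS.opS f S).D).symm

end curS

/-! ### the bijection with the objects of the iterated S-construction -/

/-- the bijection -/
def bij : ∀ (k : ℕ) (E : ExCat.{u}) (m : ℕ), SDiag E.C E.P k m ≃ (((itS Sd k).obj E).obj m).Ob
  | 0, E, m => e0 E m
  | k + 1, E, m => (curE E).trans (bij k (E.S (Fin (m + 1))) m)

theorem bij_map (k : ℕ) {E E' : ExCat.{u}} (F : ExFun E E') (m : ℕ) (S : SDiag E.C E.P k m) :
    bij k E' m (mapSD F S) = (SOb.Hom.app ((itS Sd k).map (X := E) (Y := E') F) m).F.obj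
      (bij k E m S) := by
  induction k generalizing E E' with
  | zero => rfl
  | succ k ih => exact ih (F.S (Fin (m + 1))) (curS E S)

theorem bij_op (k : ℕ) (E : ExCat.{u}) {m n : ℕ} (f : Mo m n) (S : SDiag E.C E.P k n) :
    bij k E m (ZS.opS f S) = (((itS Sd k).obj E).map f).F.obj (bij k E n S) := by
  induction k generalizing E with
  | zero =>
    change (⟨S.D.obj (ZS.opT f (t0 m)), _⟩ : E.Ob) = ⟨S.D.obj (t0 n), _⟩
    congr 2
    exact t0_eq _
  | succ k ih =>
    change bij k (E.S (Fin (m + 1))) m (curS E (ZS.opS f S)) = _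
    rw [curS_op, ih, bij_map]
    rfl

theorem bij_zero (k : ℕ) (E : ExCat.{u}) (m : ℕ) (S : SDiag E.C E.P k m) :
    (∀ x, IsZero (S.D.obj x)) ↔ IsZero (bij k E m S).obj := by
  induction k generalizing E with
  | zero =>
    constructor
    · intro h
      exact h _
    · intro h x
      rw [t0_eq x]
      exact h
  | succ k ih =>
    refine Iff.trans ?_ (ih (E.S (Fin (m + 1))) (curS E S))
    constructor
    · intro h y
      exact (isZero_functor _).2 fun p => h _
    · intro h x
      rw [← consT_tail x]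
      exact (isZero_functor _).1 (h (tailT x)) (x 0)

end Pool.Agent.KPR
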