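import Pool.Agent.KPR.ZS

/-!
# KPR: the abelian groups `K_n(E)`

`K C P n`: the group `KP C P n`, written additively (it is commutative, being a homotopy group of
positive degree of a simplicial group).
-/

set_option autoImplicit false

namespace Pool.Agent.KPR

open CategoryTheory

universe u

/-- Quillen's `K_n`, `n ≥ 0`, of the exact category of the objects with the property `P` of the
abelian category `C`, written additively -/
def K (C : Type (u + 1)) [Category.{u} C] [Abelian C] (P : C → Prop) (n : ℕ) : Type (u + 1) :=
  Additive (KP C P n)

noncomputable instance K.addCommGroup (C : Type (u + 1)) [Category.{u} C] [Abelian C]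
    (P : C → Prop) (n : ℕ) : AddCommGroup (K C P n) :=
  @Additive.addCommGroup _ (CommGroup.mk (KP_comm n))

/-- Quillen's `K_n` of the category of finitely generated modules over the ring `A` -/
abbrev KA (n : ℕ) (A : Type) [CommRing A] : Type 1 :=
  K (ModuleCat.{0} A) (fun M => Module.Finite A M) n

end Pool.Agent.KPR
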