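import Pool.Agent.KPR.Ex

/-!
# KPR: `KP E.C E.P n` is `Kn n E`

The compact definition `KP` agrees with the definition `Kn` of the library KQ.
-/

set_option autoImplicit false

noncomputable section

namespace Pool.Agent.KPR

open CategoryTheory CategoryTheory.Limits Function Pool.Agent.KQ

universe u

/-- the objects of the iterated S-construction as a simplicial set with zero elements -/
def it (E : ExCat.{u}) (k : ℕ) : ZS.{u + 1} where
  obj m := (((itS Sd k).obj E).obj m).Ob
  map f := (((itS Sd k).obj E).map f).F.obj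
  map_id m x := by
    rw [SOb.map_id]
    rfl
  map_comp f g x := by
    rw [SOb.map_comp]
    rfl
  zr _ x := IsZero x.obj
  zr_map f _ h := ExFun.isZero (((itS Sd k).obj E).map f) h

/-- the diagrams and the objects -/
def sdIt (E : ExCat.{u}) (k : ℕ) : (ZS.sd E.C E.P k).G ≅ (it E k).G :=
  ZS.isoG (X := ZS.sd E.C E.P k) (Y := it E k) (bij k E) (bij_zero k E) fun f x => bij_op k E f x

/-! ### pointed sets -/

/-- homomorphisms from the free group of a pointed set -/
def frLift {X : Pointed.{u}} {A : Type*} [Group A] (f : X.X → A) (h : f X.point = 1) : Fr X →* A :=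
  QuotientGroup.lift _ (FreeGroup.lift f) fun w hw => by
    have : Subgroup.normalClosure {FreeGroup.of X.point} ≤ (FreeGroup.lift f).ker := by
      refine Subgroup.normalClosure_le_normal ?_
      rintro _ rfl
      change FreeGroup.lift _ (FreeGroup.of X.point) = 1
      rw [FreeGroup.lift_apply_of, h]
    exact this hw

theorem frLift_of {X : Pointed.{u}} {A : Type*} [Group A] (f : X.X → A) (h : f X.point = 1)
    (x : X.X) : frLift f h (Fr.of X x) = f x := FreeGroup.lift_apply_of

theorem mk_zero (E : ExCat.{u}) {x : E.Ob} (h : IsZero x.obj) :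
    Fr.of E.obP (Quot.mk _ x) = 1 := by
  have e : (Quot.mk _ x : E.obP.X) = E.obP.point := Quot.sound ⟨h, isZero_zero _⟩
  rw [e, Fr.of_point]

/-- the generator of an object -/
def gob (E : ExCat.{u}) (k m : ℕ) (x : (((itS Sd k).obj E).obj m).Ob) :
    Fr ((((itS Sd k).obj E).obj m).obP) := Fr.of _ (Quot.mk _ x)

/-- the free group on the objects of the exact category, level `m` -/
def lev (E : ExCat.{u}) (k m : ℕ) :
    (it E k).Gr m ≃* Fr ((((itS Sd k).obj E).obj m).obP) where
  toFun := (it E k).lift m (gob E k m) fun x h => mk_zero _ h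
  invFun := frLift (fun x => Quot.lift (fun y => (it E k).gen (n := m) y) (fun a b h => by
    rw [ZS.gen_zr (X := it E k) (n := m) h.1, ZS.gen_zr (X := it E k) (n := m) h.2]) x)
    (ZS.gen_zr (X := it E k) (n := m) (x := (((itS Sd k).obj E).obj m).zo)
      (isZero_zero (((itS Sd k).obj E).obj m).C))
  left_inv x := by
    rw [← MonoidHom.comp_apply]
    refine DFunLike.congr_fun (?_ : _ = MonoidHom.id _) x
    refine ZS.hom_ext fun x => ?_
    rw [MonoidHom.comp_apply, ZS.lift_gen]
    exact frLift_of _ _ _
  right_inv x := by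
    rw [← MonoidHom.comp_apply]
    refine DFunLike.congr_fun (?_ : _ = MonoidHom.id _) x
    refine Fr.hom_ext fun x => ?_
    induction x using Quot.ind with
    | mk x =>
      rw [MonoidHom.comp_apply, frLift_of]
      exact (it E k).lift_gen (n := m) _ _ x
  map_mul' x y := map_mul _ x y

theorem lev_gen (E : ExCat.{u}) (k m : ℕ) (x : (it E k).obj m) :
    lev E k m ((it E k).gen x) = Fr.of _ (Quot.mk _ x) :=
  (it E k).lift_gen (n := m) (gob E k m) (fun x h => mk_zero _ h) x

/-- the comparison with the free simplicial group of the pointed sets of objects -/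
def itFr (E : ExCat.{u}) (k : ℕ) : (it E k).G ≅ (itP Sd obF k ⋙ frF).obj E :=
  SGp.isoMk (lev E k) fun {m n} f x => by
    have h : (lev E k m).toMonoidHom.comp ((it E k).op f) =
        (Fr.map (obF.map (((itS Sd k).obj E).map f))).comp (lev E k n).toMonoidHom :=
      ZS.hom_ext fun x => by
        change lev E k m ((it E k).op f ((it E k).gen x)) =
          Fr.map _ (lev E k n ((it E k).gen x))
        rw [ZS.op_gen, lev_gen, lev_gen, Fr.map_of]
        rfl
    exact DFunLike.congr_fun h x

/-- the comparison with the simplicial group of the library KQ -/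
def itDK (E : ExCat.{u}) (k : ℕ) : (it E k).G ≅ (DK k).obj E :=
  itFr E k ≪≫ ((dIso Sd obF k).app E).symm

/-- `KP` is `Kn` -/
def knMul (E : ExCat.{u}) (n : ℕ) :
    KP E.C E.P n ≃* ((DK (n + 3)).obj E).Pi (2 * n + 2 + 1) :=
  (ZS.kpEquiv n).trans (SGp.PiEquiv (sdIt E (n + 3) ≪≫ itDK E (n + 3)) (2 * n + 2 + 1))

/-- **the bridge**: the group `K_n` of the compact definition is the group `Kn` of the library KQ -/
def knEquiv (E : ExCat.{u}) (n : ℕ) : Additive (KP E.C E.P n) ≃ Kn n E := (knMul E n).toEquiv

end Pool.Agent.KPR
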