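import Pool.Agent.KPR.Defs
import Pool.Agent.KQ.DK

/-!
# KPR: simplicial sets with zero elements and their simplicial groups; `KP` as a homotopy group

`ZS`: simplicial sets with a class of zero elements; `X.G`: the free simplicial group, the zero
elements identified with `1`. `ZS.sd C P k`: the simplicial set of the diagrams `SDiag C P k m`;
`KP C P n ≃* π_(2n+3) (ZS.sd C P (n+3)).G`.
-/

set_option autoImplicit false

namespace Pool.Agent.KPR

open CategoryTheory CategoryTheory.Limits Function Pool.Agent.KQ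

universe u

/-! ### simplicial sets with zero elements -/

/-- simplicial sets with a class of zero elements -/
structure ZS where
  /-- the simplices -/
  obj : ℕ → Type u
  /-- the operators -/
  map : ∀ {m n : ℕ}, Mo m n → obj n → obj m
  map_id : ∀ (n : ℕ) (x : obj n), map (OrderHom.id : Mo n n) x = x
  map_comp : ∀ {l m n : ℕ} (f : Mo l m) (g : Mo m n) (x : obj n),
    map (g.comp f) x = map f (map g x)
  /-- the zero elements -/
  zr : ∀ n, obj n → Prop
  zr_map : ∀ {m n : ℕ} (f : Mo m n) (x : obj n), zr n x → zr m (map f x)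

namespace ZS

variable (X Y : ZS.{u})

/-- the normal subgroup generated by the zero elements -/
def nul (n : ℕ) : Subgroup (FreeGroup (X.obj n)) :=
  Subgroup.normalClosure {w | ∃ x, X.zr n x ∧ w = FreeGroup.of x}

instance (n : ℕ) : (X.nul n).Normal := Subgroup.normalClosure_normal

/-- the free group on the simplices, zero elements identified with `1` -/
abbrev Gr (n : ℕ) : Type u := FreeGroup (X.obj n) ⧸ X.nul n

/-- the generators -/
def gen {n : ℕ} (x : X.obj n) : X.Gr n := QuotientGroup.mk (FreeGroup.of x)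

variable {X} in
theorem gen_zr {n : ℕ} {x : X.obj n} (h : X.zr n x) : X.gen x = 1 :=
  (QuotientGroup.eq_one_iff _).2 (Subgroup.subset_normalClosure ⟨x, h, rfl⟩)

/-- homomorphisms from the free group -/
def lift {A : Type*} [Group A] (n : ℕ) (f : X.obj n → A) (h : ∀ x, X.zr n x → f x = 1) :
    X.Gr n →* A :=
  QuotientGroup.lift (X.nul n) (FreeGroup.lift f) (by
    refine Subgroup.normalClosure_le_normal (N := (FreeGroup.lift f).ker) ?_
    rintro _ ⟨x, hx, rfl⟩
    change FreeGroup.lift f (FreeGroup.of x) = 1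
    rw [FreeGroup.lift_apply_of, h x hx])

@[simp] theorem lift_gen {A : Type*} [Group A] {n : ℕ} (f : X.obj n → A)
    (h : ∀ x, X.zr n x → f x = 1) (x : X.obj n) : X.lift n f h (X.gen x) = f x :=
  FreeGroup.lift_apply_of

variable {X} in
theorem hom_ext {A : Type*} [Group A] {n : ℕ} {f g : X.Gr n →* A}
    (h : ∀ x, f (X.gen x) = g (X.gen x)) : f = g := by
  refine QuotientGroup.monoidHom_ext _ ?_
  exact FreeGroup.ext_hom _ _ h

/-- the operators on the free groups -/
def op {m n : ℕ} (f : Mo m n) : X.Gr n →* X.Gr m :=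
  X.lift n (fun x => X.gen (X.map f x)) fun x hx => gen_zr (X.zr_map f x hx)

@[simp] theorem op_gen {m n : ℕ} (f : Mo m n) (x : X.obj n) :
    X.op f (X.gen x) = X.gen (X.map f x) := X.lift_gen _ _ _

/-- the simplicial group -/
def G : SGp.{u} where
  obj := X.Gr
  map := X.op
  map_id n x := by
    have h : X.op (OrderHom.id : Mo n n) = MonoidHom.id _ := hom_ext fun x => by
      rw [op_gen, X.map_id]
      rfl
    rw [h]
    rfl
  map_comp f g x := by
    have h : X.op (g.comp f) = (X.op f).comp (X.op g) := hom_ext fun x => by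
      rw [op_gen, X.map_comp, MonoidHom.comp_apply, op_gen, op_gen]
    rw [h]
    rfl

variable {X Y}

/-- isomorphisms of the free groups -/
def grEquiv {n : ℕ} (e : X.obj n ≃ Y.obj n) (he : ∀ x, X.zr n x ↔ Y.zr n (e x)) :
    X.Gr n ≃* Y.Gr n where
  toFun := X.lift n (fun x => Y.gen (e x)) fun x hx => gen_zr ((he x).1 hx)
  invFun := Y.lift n (fun y => X.gen (e.symm y)) fun y hy => gen_zr ((he _).2 (by simpa using hy))
  left_inv x := by
    rw [← MonoidHom.comp_apply]
    have h : (Y.lift n (fun y => X.gen (e.symm y)) fun y hy => gen_zr ((he _).2 (by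
        simpa using hy))).comp (X.lift n (fun x => Y.gen (e x)) fun x hx => gen_zr ((he x).1 hx)) =
        MonoidHom.id _ := hom_ext fun x => by
      rw [MonoidHom.comp_apply, lift_gen, lift_gen, e.symm_apply_apply]
      rfl
    rw [h]
    rfl
  right_inv x := by
    rw [← MonoidHom.comp_apply]
    have h : (X.lift n (fun x => Y.gen (e x)) fun x hx => gen_zr ((he x).1 hx)).comp
        (Y.lift n (fun y => X.gen (e.symm y)) fun y hy => gen_zr ((he _).2 (by
          simpa using hy))) = MonoidHom.id _ := hom_ext fun x => by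
      rw [MonoidHom.comp_apply, lift_gen, lift_gen, e.apply_symm_apply]
      rfl
    rw [h]
    rfl
  map_mul' x y := map_mul _ x y

theorem grEquiv_gen {n : ℕ} (e : X.obj n ≃ Y.obj n) (he : ∀ x, X.zr n x ↔ Y.zr n (e x))
    (x : X.obj n) : grEquiv e he (X.gen x) = Y.gen (e x) :=
  X.lift_gen (fun x => Y.gen (e x)) (fun x hx => gen_zr ((he x).1 hx)) x

/-- isomorphisms of simplicial sets with zero elements induce isomorphisms of simplicial groups -/
def isoG (e : ∀ n, X.obj n ≃ Y.obj n) (he : ∀ n x, X.zr n x ↔ Y.zr n (e n x))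
    (hn : ∀ {m n : ℕ} (f : Mo m n) (x : X.obj n), e m (X.map f x) = Y.map f (e n x)) :
    X.G ≅ Y.G :=
  SGp.isoMk (fun n => grEquiv (e n) (he n)) fun {m n} f x => by
    have h : (grEquiv (e m) (he m)).toMonoidHom.comp (X.op f) =
        (Y.op f).comp (grEquiv (e n) (he n)).toMonoidHom := hom_ext fun x => by
      change grEquiv (e m) (he m) (X.op f (X.gen x)) = Y.op f (grEquiv (e n) (he n) (X.gen x))
      rw [op_gen, grEquiv_gen, grEquiv_gen, op_gen, hn]
    exact congrArg (fun g => g x) h

/-! ### the simplicial sets of diagrams -/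

section sd

/-- monotone maps act on pairs -/
def opPr {m n : ℕ} (f : Mo m n) (p : Pr m) : Pr n := ⟨(f p.1.1, f p.1.2), f.monotone p.2⟩

/-- monotone maps act on tuples of pairs -/
def opT {k m n : ℕ} (f : Mo m n) : Tup k m →o Tup k n :=
  ⟨fun x i => opPr f (x i), fun _ _ h i => ⟨f.monotone (h i).1, f.monotone (h i).2⟩⟩

variable {C : Type (u + 1)} [Category.{u} C] [Abelian C] {P : C → Prop}

/-- the operators on the diagrams -/
def opS {k m n : ℕ} (f : Mo m n) (S : SDiag C P k n) : SDiag C P k m where
  D := (opT f).monotone.functor ⋙ S.D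
  prop _ := S.prop _
  zero _ i h := S.zero _ i (congrArg f h)
  exact _ _ _ h h' i hj h1 h2 h3 := S.exact _ _ _ ((opT f).monotone h) ((opT f).monotone h') i
    (fun j hji => ⟨congrArg (opPr f) (hj j hji).1, congrArg (opPr f) (hj j hji).2⟩)
    (congrArg f h1) (congrArg f h2) (congrArg f h3)

variable (C P) in
/-- the simplicial set of the diagrams `SDiag C P k m` -/
def sd (k : ℕ) : ZS.{u + 1} where
  obj m := SDiag C P k m
  map f S := opS f S
  map_id _ _ := rfl
  map_comp _ _ _ := rfl
  zr _ S := ∀ x, IsZero (S.D.obj x)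
  zr_map _ _ h _ := h _

theorem nul_eq (k m : ℕ) : (sd C P k).nul m = Nul C P k m := rfl

theorem op_eq (k m : ℕ) (a : Fin (m + 2)) : (sd C P k).op (dl a) = dG C P k m a := by
  refine hom_ext fun x => ?_
  rw [op_gen]
  exact (congrArg QuotientGroup.mk FreeGroup.map.of).symm

end sd

/-! ### homotopy groups -/

/-- the group `Moore` of a simplicial group is its homotopy group -/
noncomputable def mooreEquiv (G : SGp.{u}) (m : ℕ) :
    Moore (fun a => G.map (dl (n := m + 1) a)) (fun a => G.map (dl (n := m) a)) ≃*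
      G.Pi (m + 1) := by
  have h : ((G.B (m + 1)).subgroupOf (G.Z (m + 1))).Normal :=
    @Subgroup.normal_subgroupOf _ _ _ _ (SGp.B_normal G (m + 1))
  exact @QuotientGroup.quotientMulEquivOfEq _ _ _ ((G.B (m + 1)).subgroupOf (G.Z (m + 1)))
    Subgroup.normalClosure_normal h
    (@Subgroup.normalClosure_eq_self _ _ ((G.B (m + 1)).subgroupOf (G.Z (m + 1))) h)

/-- equal data, isomorphic groups -/
def mooreCongr {m : ℕ} {G₂ G₁ G₀ : Type u} [Group G₂] [Group G₁] [Group G₀]
    {e e' : Fin (m + 3) → G₂ →* G₁} {d d' : Fin (m + 2) → G₁ →* G₀} (h : e = e') (h' : d = d') :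
    Moore e d ≃* Moore e' d' := by
  subst h h'
  exact MulEquiv.refl _

/-- `KP` is a homotopy group of the simplicial group of diagrams -/
noncomputable def kpEquiv {C : Type (u + 1)} [Category.{u} C] [Abelian C] {P : C → Prop} (n : ℕ) :
    KP C P n ≃* (sd C P (n + 3)).G.Pi (2 * n + 2 + 1) :=
  (mooreCongr (funext fun a => (op_eq _ _ a).symm) (funext fun a => (op_eq _ _ a).symm) :
    KP C P n ≃* Moore (fun a => (sd C P (n + 3)).G.map (dl (n := 2 * n + 2 + 1) a))
      (fun a => (sd C P (n + 3)).G.map (dl (n := 2 * n + 2) a))).trans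
    (mooreEquiv (sd C P (n + 3)).G (2 * n + 2))

end ZS

theorem KP_comm {C : Type (u + 1)} [Category.{u} C] [Abelian C] {P : C → Prop} (n : ℕ)
    (x y : KP C P n) : x * y = y * x := by
  apply (ZS.kpEquiv n).injective
  rw [map_mul, map_mul]
  exact thm_Comm _ _ _ _

end Pool.Agent.KPR
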